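import Mathlib

/-!
# Online conflict-free colouring of points on a line: a lower bound for all deterministic algorithms

Every deterministic online algorithm that keeps the colouring conflict-free with respect to
intervals can be forced to use `K` colours on `n` points with `n < 1.2 * 1.672 ^ K`, that is
`K > log_{1.672} (n / 1.2)`, about `1.348 * log₂ n`.

Let `G k` be a number of points which forces more than `k` colours.  The adversary inserts
whole blocks of points and `G (k + 3) ≤ G (k + 1) + 3 * G k` (root of `x ^ 3 = x + 3`).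
-/

set_option autoImplicit false

namespace Pool.Agent.Results.MP_755262_lc.ConflictFreeLowerBound

open Finset

/-- The colour which the algorithm `A` gives to the `i`-th point of the insertion sequence `x`;
it depends on the points `x 0, …, x i` only. -/
def colour {C : Type*} (A : List ℝ → C) (x : ℕ → ℝ) (i : ℕ) : C := A ((List.range (i + 1)).map x)

variable {C : Type*}

/-- The algorithm `A` keeps the colouring conflict-free with respect to intervals: for every
sequence of distinct points, at every time `n`, every closed interval that contains a current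
point contains a current point whose colour occurs only once in the interval. -/
def ConflictFree (A : List ℝ → C) : Prop :=
  ∀ x : ℕ → ℝ, Function.Injective x → ∀ n : ℕ, ∀ a b : ℝ,
    (∃ i, i < n ∧ x i ∈ Set.Icc a b) →
      ∃ i, i < n ∧ x i ∈ Set.Icc a b ∧
        ∀ j, j < n → x j ∈ Set.Icc a b → j ≠ i → colour A x j ≠ colour A x i

/-- The points of the block `b`, inserted after the history `h`, with their colours. -/
def pcs (A : List ℝ → C) : List ℝ → List ℝ → List (ℝ × C)
  | _, [] => []
  | h, p :: b => (p, A (h ++ [p])) :: pcs A (h ++ [p]) b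

lemma pcs_append (A : List ℝ → C) (h b1 b2 : List ℝ) :
    pcs A h (b1 ++ b2) = pcs A h b1 ++ pcs A (h ++ b1) b2 := by
  induction b1 generalizing h with
  | nil => simp [pcs]
  | cons p b ih => simp [pcs, ih, List.append_assoc]

lemma pcs_fst (A : List ℝ → C) (h b : List ℝ) : (pcs A h b).map Prod.fst = b := by
  induction b generalizing h with
  | nil => simp [pcs]
  | cons p b ih => simp [pcs, ih]

lemma fst_mem {A : List ℝ → C} {h b : List ℝ} {q : ℝ × C} (hq : q ∈ pcs A h b) : q.1 ∈ b := by
  have := List.mem_map_of_mem (f := Prod.fst) hq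
  rwa [pcs_fst] at this

lemma exists_pair {A : List ℝ → C} {h b : List ℝ} {p : ℝ} (hp : p ∈ b) :
    ∃ q ∈ pcs A h b, q.1 = p := by
  rw [← pcs_fst A h b] at hp
  simpa using hp

lemma pcs_range (A : List ℝ → C) (x : ℕ → ℝ) (n : ℕ) :
    pcs A [] ((List.range n).map x) = (List.range n).map (fun i => (x i, colour A x i)) := by
  induction n with
  | zero => simp [pcs]
  | succ n ih =>
    rw [List.range_succ, List.map_append, pcs_append, ih, List.map_append]
    simp [pcs, colour, List.range_succ]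

lemma exists_seq (l : List ℝ) (hl : l.Nodup) :
    ∃ x : ℕ → ℝ, Function.Injective x ∧ (List.range l.length).map x = l := by
  obtain ⟨B, hB⟩ : ∃ B : ℝ, ∀ p ∈ l, p < B := by
    induction l with
    | nil => exact ⟨0, by simp⟩
    | cons p l ih =>
      obtain ⟨B, hB⟩ := ih (List.nodup_cons.1 hl).2
      refine ⟨max B (p + 1), ?_⟩
      intro q hq
      rcases List.mem_cons.1 hq with rfl | hq
      · exact lt_of_lt_of_le (by linarith) (le_max_right _ _)
      · exact lt_of_lt_of_le (hB q hq) (le_max_left _ _)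
  refine ⟨fun i => if h : i < l.length then l[i] else B + i, ?_, ?_⟩
  · intro i j hij
    by_cases hi : i < l.length <;> by_cases hj : j < l.length
    · simp only [hi, hj, dif_pos] at hij
      exact (List.Nodup.getElem_inj_iff hl).1 hij
    · simp only [hi, hj, dif_pos, dif_neg, not_false_eq_true] at hij
      have := hB l[i] (List.getElem_mem hi)
      have h2 : (0 : ℝ) ≤ j := Nat.cast_nonneg j
      linarith
    · simp only [hi, hj, dif_pos, dif_neg, not_false_eq_true] at hij
      have := hB l[j] (List.getElem_mem hj)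
      have h2 : (0 : ℝ) ≤ i := Nat.cast_nonneg i
      linarith
    · simp only [hi, hj, dif_neg, not_false_eq_true, add_right_inj, Nat.cast_inj] at hij
      exact hij
  · apply List.ext_getElem
    · simp
    · intro i h1 h2
      simp [h2]

lemma cfl {A : List ℝ → C} (hA : ConflictFree A) {l : List ℝ} (hl : l.Nodup) {a b : ℝ}
    (hex : ∃ q ∈ pcs A [] l, a ≤ q.1 ∧ q.1 ≤ b) :
    ∃ q ∈ pcs A [] l, a ≤ q.1 ∧ q.1 ≤ b ∧
      ∀ q' ∈ pcs A [] l, a ≤ q'.1 → q'.1 ≤ b → q' ≠ q → q'.2 ≠ q.2 := by
  obtain ⟨x, hx, hxl⟩ := exists_seq l hl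
  have hp : pcs A [] l = (List.range l.length).map (fun i => (x i, colour A x i)) := by
    conv_lhs => rw [← hxl]
    rw [pcs_range]
  rw [hp] at hex ⊢
  simp only [List.mem_map, List.mem_range, exists_exists_and_eq_and] at hex ⊢
  obtain ⟨i, hi, h1⟩ := hex
  obtain ⟨j, hj, hjI, hu⟩ := hA x hx l.length a b ⟨i, hi, h1⟩
  refine ⟨j, hj, hjI.1, hjI.2, ?_⟩
  rintro q' ⟨m, hm, rfl⟩ h2 h3 hne
  apply hu m hm ⟨h2, h3⟩
  rintro rfl
  exact hne rfl

variable [DecidableEq C]

/-- The colours of the block `b` inserted after the history `h`. -/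
def cols (A : List ℝ → C) (h b : List ℝ) : Finset C := ((pcs A h b).map Prod.snd).toFinset

lemma mem_cols {A : List ℝ → C} {h b : List ℝ} {c : C} :
    c ∈ cols A h b ↔ ∃ q ∈ pcs A h b, q.2 = c := by
  simp [cols]

lemma cols_append (A : List ℝ → C) (h b1 b2 : List ℝ) :
    cols A h (b1 ++ b2) = cols A h b1 ∪ cols A (h ++ b1) b2 := by
  ext c
  simp [cols, pcs_append]

/-- In every gap the adversary can insert a block of at most `N` points with more than `r`
colours. -/
def Forces (A : List ℝ → C) (r N : ℕ) : Prop :=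
  ∀ (h : List ℝ) (u v : ℝ), h.Nodup → u < v → (∀ p ∈ h, ¬ (u < p ∧ p < v)) →
    ∃ b : List ℝ, b.length ≤ N ∧ (h ++ b).Nodup ∧ (∀ p ∈ b, u < p ∧ p < v) ∧
      r + 1 ≤ (cols A h b).card

/-- The separators of the six slots in the gap `(u, v)`. -/
noncomputable def s (u v : ℝ) (m : ℕ) : ℝ := u + (v - u) * ((m + 1) / 8)

lemma s_lt {u v : ℝ} (huv : u < v) {m m' : ℕ} (h : m < m') : s u v m < s u v m' := by
  unfold s
  have h1 : (m : ℝ) < m' := by exact_mod_cast h
  have h2 : 0 < v - u := by linarith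
  have h3 : ((m : ℝ) + 1) / 8 < (m' + 1) / 8 := by linarith
  have := mul_lt_mul_of_pos_left h3 h2
  linarith

lemma s_le {u v : ℝ} (huv : u < v) {m m' : ℕ} (h : m ≤ m') : s u v m ≤ s u v m' := by
  rcases h.eq_or_lt with rfl | h
  · exact le_rfl
  · exact (s_lt huv h).le

lemma u_lt_s {u v : ℝ} (huv : u < v) (m : ℕ) : u < s u v m := by
  unfold s
  have h2 : 0 < v - u := by linarith
  have h3 : (0 : ℝ) ≤ m := Nat.cast_nonneg m
  have : 0 < (v - u) * ((m + 1) / 8) := by positivity
  linarith

lemma s_lt_v {u v : ℝ} (huv : u < v) {m : ℕ} (hm : m ≤ 6) : s u v m < v := by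
  unfold s
  have h2 : 0 < v - u := by linarith
  have h3 : (m : ℝ) ≤ 6 := by exact_mod_cast hm
  have : (v - u) * (((m : ℝ) + 1) / 8) < (v - u) * 1 :=
    mul_lt_mul_of_pos_left (by linarith) h2
  linarith

/-- The bookkeeping: the points in the gap `(u, v)` lie in the slots and `K m` is the set of
colours in the slot `m`. -/
structure Inv (A : List ℝ → C) (u v : ℝ) (l : List ℝ) (K : ℕ → Finset C) : Prop where
  nodup : l.Nodup
  slots : ∀ p ∈ l, ¬ (u < p ∧ p < v) ∨ ∃ m, m < 6 ∧ s u v m < p ∧ p < s u v (m + 1)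
  cols : ∀ m, m < 6 → ∀ c, c ∈ K m ↔
    ∃ q ∈ pcs A [] l, s u v m < q.1 ∧ q.1 < s u v (m + 1) ∧ q.2 = c

omit [DecidableEq C] in
lemma Inv.init {A : List ℝ → C} {u v : ℝ} (huv : u < v) {h : List ℝ} (hn : h.Nodup)
    (hh : ∀ p ∈ h, ¬ (u < p ∧ p < v)) : Inv A u v h (fun _ => ∅) := by
  refine ⟨hn, fun p hp => Or.inl (hh p hp), ?_⟩
  intro m hm c
  simp only [notMem_empty, false_iff]
  rintro ⟨q, hq, h1, h2, -⟩
  exact hh q.1 (fst_mem hq) ⟨(u_lt_s huv m).trans h1, h2.trans (s_lt_v huv (by omega))⟩

lemma Inv.insert {A : List ℝ → C} {u v : ℝ} (huv : u < v) {l : List ℝ} {K : ℕ → Finset C}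
    (hI : Inv A u v l K) {m : ℕ} (hm : m < 6) (hK : K m = ∅) {r N : ℕ} (hF : Forces A r N) :
    ∃ b : List ℝ, b.length ≤ N ∧ (∀ p ∈ b, u < p ∧ p < v) ∧
      r + 1 ≤ (ConflictFreeLowerBound.cols A l b).card ∧
      Inv A u v (l ++ b) (Function.update K m (ConflictFreeLowerBound.cols A l b)) := by
  obtain ⟨b, hb1, hb2, hb3, hb4⟩ := hF l (s u v m) (s u v (m + 1)) hI.nodup
    (s_lt huv (Nat.lt_succ_self m)) (by
      rintro p hp ⟨h1, h2⟩
      obtain ⟨q, hq, rfl⟩ := exists_pair (A := A) (h := []) hp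
      have : q.2 ∈ K m := (hI.cols m hm q.2).2 ⟨q, hq, h1, h2, rfl⟩
      rw [hK] at this
      exact absurd this (notMem_empty _))
  refine ⟨b, hb1, ?_, hb4, hb2, ?_, ?_⟩
  · intro p hp
    exact ⟨(u_lt_s huv m).trans (hb3 p hp).1, (hb3 p hp).2.trans (s_lt_v huv (by omega))⟩
  · intro p hp
    rcases List.mem_append.1 hp with hp | hp
    · exact hI.slots p hp
    · exact Or.inr ⟨m, hm, hb3 p hp⟩
  · intro m' hm' c
    rw [pcs_append]
    simp only [List.nil_append, List.mem_append]
    by_cases hmm : m' = m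
    · subst hmm
      rw [Function.update_self, mem_cols]
      constructor
      · rintro ⟨q, hq, h⟩
        exact ⟨q, Or.inr hq, (hb3 q.1 (fst_mem hq)).1, (hb3 q.1 (fst_mem hq)).2, h⟩
      · rintro ⟨q, hq | hq, h1, h2, h3⟩
        · exfalso
          have : q.2 ∈ K m' := (hI.cols m' hm q.2).2 ⟨q, hq, h1, h2, rfl⟩
          rw [hK] at this
          exact absurd this (notMem_empty _)
        · exact ⟨q, hq, h3⟩
    · rw [Function.update_of_ne hmm, hI.cols m' hm' c]
      constructor
      · rintro ⟨q, hq, h⟩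
        exact ⟨q, Or.inl hq, h⟩
      · rintro ⟨q, hq | hq, h1, h2, h3⟩
        · exact ⟨q, hq, h1, h2, h3⟩
        · exfalso
          have h4 := hb3 q.1 (fst_mem hq)
          rcases lt_or_gt_of_ne hmm with h | h
          · have := s_le huv (show m' + 1 ≤ m by omega)
            linarith [h4.1]
          · have := s_le huv (show m + 1 ≤ m' by omega)
            linarith [h4.2]

/-- Every interval of slots which is not empty has a colour that is in exactly one slot. -/
def Valid (K : ℕ → Finset C) : Prop :=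
  ∀ i j, i < j → j ≤ 6 → (∃ m, i ≤ m ∧ m < j ∧ (K m).Nonempty) →
    ∃ m c, i ≤ m ∧ m < j ∧ c ∈ K m ∧ ∀ m', i ≤ m' → m' < j → m' ≠ m → c ∉ K m'

omit [DecidableEq C] in
lemma Inv.valid {A : List ℝ → C} (hA : ConflictFree A) {u v : ℝ} (huv : u < v) {l : List ℝ}
    {K : ℕ → Finset C} (hI : Inv A u v l K) : Valid K := by
  rintro i j hij hj ⟨m, him, hmj, c, hc⟩
  obtain ⟨q, hq, h1, h2, h3⟩ := (hI.cols m (by omega) c).1 hc
  obtain ⟨q0, hq0, h01, h02, hu⟩ := cfl hA hI.nodup (a := s u v i) (b := s u v j)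
    ⟨q, hq, (s_le huv him).trans h1.le, h2.le.trans (s_le huv (by omega))⟩
  rcases hI.slots q0.1 (fst_mem hq0) with h | ⟨m0, hm0, h4, h5⟩
  · exact absurd ⟨(u_lt_s huv i).trans_le h01, h02.trans_lt (s_lt_v huv hj)⟩ h
  · have him0 : i ≤ m0 := by
      by_contra hlt
      have := s_le huv (show m0 + 1 ≤ i by omega)
      linarith
    have hm0j : m0 < j := by
      by_contra hlt
      have := s_le huv (show j ≤ m0 by omega)
      linarith
    refine ⟨m0, q0.2, him0, hm0j, (hI.cols m0 hm0 _).2 ⟨q0, hq0, h4, h5, rfl⟩, ?_⟩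
    intro m' h6 h7 hne hmem
    obtain ⟨q', hq', h8, h9, h10⟩ := (hI.cols m' (by omega) _).1 hmem
    refine hu q' hq' ((s_le huv h6).trans h8.le) (h9.le.trans (s_le huv (by omega))) ?_ h10
    rintro rfl
    rcases lt_or_gt_of_ne hne with h | h
    · have := s_le huv (show m' + 1 ≤ m0 by omega)
      linarith
    · have := s_le huv (show m0 + 1 ≤ m' by omega)
      linarith

omit [DecidableEq C] in
lemma Valid.two {K : ℕ → Finset C} (hv : Valid K) (i j : ℕ) {p q : ℕ} (hj : j ≤ 6)
    (hp : i ≤ p ∧ p < j) (hq : i ≤ q ∧ q < j) (hpq : p ≠ q) (hne : (K p).Nonempty)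
    (he : ∀ m, i ≤ m → m < j → m ≠ p → m ≠ q → K m = ∅) : K p ≠ K q := by
  intro heq
  obtain ⟨m, c, h1, h2, h3, h4⟩ := hv i j (by omega) hj ⟨p, hp.1, hp.2, hne⟩
  by_cases hmp : m = p
  · subst hmp
    exact h4 q hq.1 hq.2 hpq.symm (heq ▸ h3)
  · by_cases hmq : m = q
    · subst hmq
      exact h4 p hp.1 hp.2 hpq (heq ▸ h3)
    · rw [he m h1 h2 hmp hmq] at h3
      exact absurd h3 (notMem_empty _)

/-- Some colour is in exactly one of the three sets. -/
def E3 (A B D : Finset C) : Prop :=
  ∃ d, (d ∈ A ∧ d ∉ B ∧ d ∉ D) ∨ (d ∉ A ∧ d ∈ B ∧ d ∉ D) ∨ (d ∉ A ∧ d ∉ B ∧ d ∈ D)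

/-- Some colour is in exactly one of the four sets. -/
def E4 (A B D E : Finset C) : Prop :=
  ∃ d, (d ∈ A ∧ d ∉ B ∧ d ∉ D ∧ d ∉ E) ∨ (d ∉ A ∧ d ∈ B ∧ d ∉ D ∧ d ∉ E) ∨
    (d ∉ A ∧ d ∉ B ∧ d ∈ D ∧ d ∉ E) ∨ (d ∉ A ∧ d ∉ B ∧ d ∉ D ∧ d ∈ E)

omit [DecidableEq C] in
lemma Valid.three {K : ℕ → Finset C} (hv : Valid K) (i j : ℕ) {p q r : ℕ} (hj : j ≤ 6)
    (hp : i ≤ p ∧ p < j) (hq : i ≤ q ∧ q < j) (hr : i ≤ r ∧ r < j)
    (hpq : p ≠ q) (hpr : p ≠ r) (hqr : q ≠ r) (hne : (K p).Nonempty)
    (he : ∀ m, i ≤ m → m < j → m ≠ p → m ≠ q → m ≠ r → K m = ∅) : E3 (K p) (K q) (K r) := by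
  obtain ⟨m, c, h1, h2, h3, h4⟩ := hv i j (by omega) hj ⟨p, hp.1, hp.2, hne⟩
  refine ⟨c, ?_⟩
  by_cases hmp : m = p
  · subst hmp
    exact Or.inl ⟨h3, h4 q hq.1 hq.2 hpq.symm, h4 r hr.1 hr.2 hpr.symm⟩
  · by_cases hmq : m = q
    · subst hmq
      exact Or.inr (Or.inl ⟨h4 p hp.1 hp.2 hpq, h3, h4 r hr.1 hr.2 hqr.symm⟩)
    · by_cases hmr : m = r
      · subst hmr
        exact Or.inr (Or.inr ⟨h4 p hp.1 hp.2 hpr, h4 q hq.1 hq.2 hqr, h3⟩)
      · rw [he m h1 h2 hmp hmq hmr] at h3
        exact absurd h3 (notMem_empty _)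

omit [DecidableEq C] in
lemma Valid.four {K : ℕ → Finset C} (hv : Valid K) (i j : ℕ) {p q r t : ℕ} (hj : j ≤ 6)
    (hp : i ≤ p ∧ p < j) (hq : i ≤ q ∧ q < j) (hr : i ≤ r ∧ r < j) (ht : i ≤ t ∧ t < j)
    (hpq : p ≠ q) (hpr : p ≠ r) (hpt : p ≠ t) (hqr : q ≠ r) (hqt : q ≠ t) (hrt : r ≠ t)
    (hne : (K p).Nonempty)
    (he : ∀ m, i ≤ m → m < j → m ≠ p → m ≠ q → m ≠ r → m ≠ t → K m = ∅) :
    E4 (K p) (K q) (K r) (K t) := by
  obtain ⟨m, c, h1, h2, h3, h4⟩ := hv i j (by omega) hj ⟨p, hp.1, hp.2, hne⟩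
  refine ⟨c, ?_⟩
  by_cases hmp : m = p
  · subst hmp
    exact Or.inl ⟨h3, h4 q hq.1 hq.2 hpq.symm, h4 r hr.1 hr.2 hpr.symm, h4 t ht.1 ht.2 hpt.symm⟩
  · by_cases hmq : m = q
    · subst hmq
      exact Or.inr (Or.inl ⟨h4 p hp.1 hp.2 hpq, h3, h4 r hr.1 hr.2 hqr.symm,
        h4 t ht.1 ht.2 hqt.symm⟩)
    · by_cases hmr : m = r
      · subst hmr
        exact Or.inr (Or.inr (Or.inl ⟨h4 p hp.1 hp.2 hpr, h4 q hq.1 hq.2 hqr, h3,
          h4 t ht.1 ht.2 hrt.symm⟩))
      · by_cases hmt : m = t
        · subst hmt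
          exact Or.inr (Or.inr (Or.inr ⟨h4 p hp.1 hp.2 hpt, h4 q hq.1 hq.2 hqt,
            h4 r hr.1 hr.2 hrt, h3⟩))
        · rw [he m h1 h2 hmp hmq hmr hmt] at h3
          exact absurd h3 (notMem_empty _)

lemma one_absurd {P A : Finset C} (cA : (P \ A).card ≤ 1) {c d : C} (hc : c ∈ P) (hd : d ∈ P)
    (hcd : c ≠ d) (h1 : c ∉ A) (h2 : d ∉ A) : False :=
  hcd (Finset.card_le_one.1 cA c (mem_sdiff.2 ⟨hc, h1⟩) d (mem_sdiff.2 ⟨hd, h2⟩))

lemma pair_eq1 {P A B : Finset C} (hA : A ⊆ P) (hB : B ⊆ P) (cA : (P \ A).card ≤ 1)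
    (cB : (P \ B).card ≤ 1) {c : C} (hc : c ∈ P) (h1 : c ∉ A) (h2 : c ∉ B) : A = B := by
  have e1 : {c} = P \ A := eq_of_subset_of_card_le
    (by intro x hx; rw [mem_singleton] at hx; subst hx; exact mem_sdiff.2 ⟨hc, h1⟩)
    (by rw [card_singleton]; exact cA)
  have e2 : {c} = P \ B := eq_of_subset_of_card_le
    (by intro x hx; rw [mem_singleton] at hx; subst hx; exact mem_sdiff.2 ⟨hc, h2⟩)
    (by rw [card_singleton]; exact cB)
  rw [← Finset.sdiff_sdiff_eq_self hA, ← Finset.sdiff_sdiff_eq_self hB, ← e1, ← e2]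

lemma pair_eq {P A B : Finset C} (hA : A ⊆ P) (hB : B ⊆ P) (cA : (P \ A).card ≤ 2)
    (cB : (P \ B).card ≤ 2) {c d : C} (hc : c ∈ P) (hd : d ∈ P) (hcd : c ≠ d)
    (h1 : c ∉ A) (h2 : d ∉ A) (h3 : c ∉ B) (h4 : d ∉ B) : A = B := by
  have e1 : {c, d} = P \ A := eq_of_subset_of_card_le
    (by
      intro x hx
      rw [mem_insert, mem_singleton] at hx
      rcases hx with rfl | rfl
      · exact mem_sdiff.2 ⟨hc, h1⟩
      · exact mem_sdiff.2 ⟨hd, h2⟩)
    (by rw [card_pair hcd]; exact cA)
  have e2 : {c, d} = P \ B := eq_of_subset_of_card_le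
    (by
      intro x hx
      rw [mem_insert, mem_singleton] at hx
      rcases hx with rfl | rfl
      · exact mem_sdiff.2 ⟨hc, h3⟩
      · exact mem_sdiff.2 ⟨hd, h4⟩)
    (by rw [card_pair hcd]; exact cB)
  rw [← Finset.sdiff_sdiff_eq_self hA, ← Finset.sdiff_sdiff_eq_self hB, ← e1, ← e2]

/-- If a colour is missing in three sets, each of which misses at most two colours, then no
colour is in exactly one of the three. -/
lemma triple {P A B D : Finset C} (hA : A ⊆ P) (hB : B ⊆ P) (hD : D ⊆ P)
    (cA : (P \ A).card ≤ 2) (cB : (P \ B).card ≤ 2) (cD : (P \ D).card ≤ 2)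
    (hAB : A ≠ B) (hBD : B ≠ D) (hAD : A = D → (P \ D).card ≤ 1) (hE : E3 A B D)
    {c : C} (hc : c ∈ P) (h1 : c ∉ A) (h2 : c ∉ B) (h3 : c ∉ D) : False := by
  obtain ⟨d, ⟨a, b, e⟩ | ⟨a, b, e⟩ | ⟨a, b, e⟩⟩ := hE
  · have hcd : c ≠ d := by rintro rfl; exact h1 a
    exact hBD (pair_eq hB hD cB cD hc (hA a) hcd h2 b h3 e)
  · have hcd : c ≠ d := by rintro rfl; exact h2 b
    have := pair_eq hA hD cA cD hc (hB b) hcd h1 a h3 e
    exact one_absurd (hAD this) hc (hB b) hcd h3 e
  · have hcd : c ≠ d := by rintro rfl; exact h3 e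
    exact hAB (pair_eq hA hB cA cB hc (hD e) hcd h1 a h2 b)

/-- The case in which all sets miss at most one colour. -/
lemma triple1 {P A B D : Finset C} (hA : A ⊆ P) (hB : B ⊆ P) (hD : D ⊆ P)
    (cA : (P \ A).card ≤ 1) (cB : (P \ B).card ≤ 1) (cD : (P \ D).card ≤ 1)
    (hAB : A ≠ B) (hBD : B ≠ D) (hAD : A ≠ D) (hE : E3 A B D) : False := by
  obtain ⟨d, ⟨a, b, e⟩ | ⟨a, b, e⟩ | ⟨a, b, e⟩⟩ := hE
  · exact hBD (pair_eq1 hB hD cB cD (hA a) b e)
  · exact hAD (pair_eq1 hA hD cA cD (hB b) a e)
  · exact hAB (pair_eq1 hA hB cA cB (hD e) a b)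

lemma miss {P A : Finset C} (hA : A ⊆ P) {a b : ℕ} (hP : P.card ≤ a) (h : b ≤ A.card) :
    (P \ A).card ≤ a - b := by
  rw [card_sdiff_of_subset hA]
  omega

omit [DecidableEq C] in
lemma nonempty_of_le {A : Finset C} {r : ℕ} (h : r + 1 ≤ A.card) : A.Nonempty :=
  card_pos.1 (by omega)

/-- One point has one colour. -/
lemma forces_zero (A : List ℝ → C) : Forces A 0 1 := by
  intro h u v hn huv hh
  refine ⟨[(u + v) / 2], by simp, ?_, ?_, ?_⟩
  · rw [List.nodup_append]
    refine ⟨hn, by simp, ?_⟩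
    rintro p hp q hq rfl
    rw [List.mem_singleton] at hq
    exact hh p hp ⟨by linarith, by linarith⟩
  · intro p hp
    rw [List.mem_singleton] at hp
    subst hp
    constructor <;> linarith
  · simp [cols, pcs]

/-- Two neighbouring blocks have different sets of colours. -/
lemma forces_two {A : List ℝ → C} (hA : ConflictFree A) {k a : ℕ} (h1 : Forces A k a) :
    Forces A (k + 1) (2 * a) := by
  intro h u v hn huv hh
  have I0 := Inv.init (A := A) huv hn hh
  obtain ⟨X, lX, inX, cX, I1⟩ := I0.insert huv (m := 5) (by norm_num) rfl h1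
  obtain ⟨Y, lY, inY, cY, I2⟩ := I1.insert huv (m := 2) (by norm_num)
    (by simp [Function.update_apply]) h1
  refine ⟨X ++ Y, ?_, ?_, ?_, ?_⟩
  · rw [List.length_append]; omega
  · rw [← List.append_assoc]; exact I2.nodup
  · intro p hp
    rcases List.mem_append.1 hp with hp | hp
    · exact inX p hp
    · exact inY p hp
  · rw [cols_append]
    by_contra hlt
    push Not at hlt
    have hv := I2.valid hA huv
    have h3 := hv.two 0 6 (p := 2) (q := 5) (by norm_num) (by norm_num) (by norm_num)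
      (by norm_num) (by simpa [Function.update_apply] using nonempty_of_le cY)
      (by intro m _ _ h5 h6; simp [Function.update_apply, h5, h6])
    simp only [Function.update_apply] at h3
    norm_num at h3
    have e1 : cols A h X = cols A h X ∪ cols A (h ++ X) Y :=
      eq_of_subset_of_card_le subset_union_left (by omega)
    have e2 : cols A (h ++ X) Y = cols A h X ∪ cols A (h ++ X) Y :=
      eq_of_subset_of_card_le subset_union_right (by omega)
    exact h3 (e2.trans e1.symm)

/-- Three blocks `Y, X', X` in spatial order, inserted in the order `X, Y, X'`. -/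
lemma pattern1 {K K' : ℕ → Finset C} {P X X' Y : Finset C} (hv : Valid K) (hv' : Valid K')
    (hK : K = fun m => if m = 2 then Y else if m = 5 then X else ∅)
    (hK' : K' = fun m => if m = 3 then X' else if m = 2 then Y else if m = 5 then X else ∅)
    (hX : X ⊆ P) (hX' : X' ⊆ P) (hY : Y ⊆ P)
    (cX : (P \ X).card ≤ 1) (cX' : (P \ X').card ≤ 1) (cY : (P \ Y).card ≤ 1)
    (_ : X.Nonempty) (nX' : X'.Nonempty) (nY : Y.Nonempty) : False := by
  subst hK hK'
  have a1 := hv.two 2 6 (p := 2) (q := 5) (by norm_num) (by norm_num) (by norm_num)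
    (by norm_num) (by simpa using nY) (by intro m _ _ h5 h6; simp [h5, h6])
  have a2 := hv'.two 2 4 (p := 2) (q := 3) (by norm_num) (by norm_num) (by norm_num)
    (by norm_num) (by simpa using nY) (by intro m _ _ h5 h6; omega)
  have a3 := hv'.two 3 6 (p := 3) (q := 5) (by norm_num) (by norm_num) (by norm_num)
    (by norm_num) (by simpa using nX') (by
      intro m h3 _ h5 h6
      have : m ≠ 2 := by omega
      simp [h5, h6, this])
  have a4 := hv'.three 2 6 (p := 2) (q := 3) (r := 5) (by norm_num) (by norm_num) (by norm_num)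
    (by norm_num) (by norm_num) (by norm_num) (by norm_num) (by simpa using nY)
    (by intro m _ _ h5 h6 h7; simp [h5, h6, h7])
  norm_num at a1 a2 a3 a4
  exact triple1 hY hX' hX cY cX' cX a2 a3 a1 a4

/-- Four blocks `Z, W, Y, X` in spatial order, inserted in the order `X, Y, Z, W`. -/
lemma pattern2 {K K' K'' : ℕ → Finset C} {P X Y Z W : Finset C} (hv : Valid K)
    (hv' : Valid K') (hv'' : Valid K'')
    (hK : K = fun m => if m = 2 then Y else if m = 5 then X else ∅)
    (hK' : K' = fun m => if m = 0 then Z else if m = 2 then Y else if m = 5 then X else ∅)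
    (hK'' : K'' = fun m => if m = 1 then W else if m = 0 then Z else if m = 2 then Y
      else if m = 5 then X else ∅)
    (hX : X ⊆ P) (hY : Y ⊆ P) (hZ : Z ⊆ P) (hW : W ⊆ P)
    (cX : (P \ X).card ≤ 1) (cY : (P \ Y).card ≤ 2) (cZ : (P \ Z).card ≤ 2)
    (cW : (P \ W).card ≤ 2)
    (_ : X.Nonempty) (nY : Y.Nonempty) (nZ : Z.Nonempty) (nW : W.Nonempty)
    (hYX : Y ⊆ X) : False := by
  subst hK hK' hK''
  have a1 := hv.two 2 6 (p := 2) (q := 5) (by norm_num) (by norm_num) (by norm_num)
    (by norm_num) (by simpa using nY) (by intro m _ _ h5 h6; simp [h5, h6])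
  have b1 := hv'.two 0 3 (p := 0) (q := 2) (by norm_num) (by norm_num) (by norm_num)
    (by norm_num) (by simpa using nZ) (by
      intro m _ _ h5 h6
      have : m ≠ 5 := by omega
      simp [h5, h6, this])
  have b2 := hv'.three 0 6 (p := 0) (q := 2) (r := 5) (by norm_num) (by norm_num) (by norm_num)
    (by norm_num) (by norm_num) (by norm_num) (by norm_num) (by simpa using nZ)
    (by intro m _ _ h5 h6 h7; simp [h5, h6, h7])
  have c1 := hv''.two 0 2 (p := 0) (q := 1) (by norm_num) (by norm_num) (by norm_num)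
    (by norm_num) (by simpa using nZ) (by intro m _ _ h5 h6; omega)
  have c2 := hv''.two 1 3 (p := 1) (q := 2) (by norm_num) (by norm_num) (by norm_num)
    (by norm_num) (by simpa using nW) (by intro m _ _ h5 h6; omega)
  have c3 := hv''.three 0 3 (p := 0) (q := 1) (r := 2) (by norm_num) (by norm_num)
    (by norm_num) (by norm_num) (by norm_num) (by norm_num) (by norm_num) (by simpa using nZ)
    (by intro m _ _ h5 h6 h7; omega)
  have c4 := hv''.three 1 6 (p := 1) (q := 2) (r := 5) (by norm_num) (by norm_num)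
    (by norm_num) (by norm_num) (by norm_num) (by norm_num) (by norm_num) (by simpa using nW)
    (by
      intro m h1 _ h5 h6 h7
      have : m ≠ 0 := by omega
      simp [h5, h6, h7, this])
  have c5 := hv''.four 0 6 (p := 0) (q := 1) (r := 2) (t := 5) (by norm_num) (by norm_num)
    (by norm_num) (by norm_num) (by norm_num) (by norm_num) (by norm_num) (by norm_num)
    (by norm_num) (by norm_num) (by norm_num) (by simpa using nZ)
    (by intro m _ _ h5 h6 h7 h8; simp [h5, h6, h7, h8])
  norm_num at a1 b1 b2 c1 c2 c3 c4 c5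
  have cX2 : (P \ X).card ≤ 2 := cX.trans (by norm_num)
  obtain ⟨d, ⟨z, w, y, x⟩ | ⟨z, w, y, x⟩ | ⟨z, w, y, x⟩ | ⟨z, w, y, x⟩⟩ := c5
  · -- missing in W, Y, X
    exact triple hW hY hX cW cY cX2 c2 a1 (fun _ => cX) c4 (hZ z) w y x
  · -- missing in Z, Y, X
    exact triple hZ hY hX cZ cY cX2 b1 a1 (fun _ => cX) b2 (hW w) z y x
  · exact x (hYX y)
  · -- missing in Z, W, Y
    exact triple hZ hW hY cZ cW cY c1 c2 (fun h => absurd h b1) c3 (hX x) z w y

/-- Four blocks `Y, W, Z, X` in spatial order, inserted in the order `X, Y, Z, W`. -/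
lemma pattern3 {K' K'' : ℕ → Finset C} {P X Y Z W : Finset C}
    (hv' : Valid K') (hv'' : Valid K'')
    (hK' : K' = fun m => if m = 4 then Z else if m = 2 then Y else if m = 5 then X else ∅)
    (hK'' : K'' = fun m => if m = 3 then W else if m = 4 then Z else if m = 2 then Y
      else if m = 5 then X else ∅)
    (hX : X ⊆ P) (hY : Y ⊆ P) (hZ : Z ⊆ P) (hW : W ⊆ P)
    (cX : (P \ X).card ≤ 1) (cY : (P \ Y).card ≤ 2) (cZ : (P \ Z).card ≤ 2)
    (cW : (P \ W).card ≤ 2)
    (_ : X.Nonempty) (nY : Y.Nonempty) (nZ : Z.Nonempty) (nW : W.Nonempty)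
    (hYX : ¬ Y ⊆ X) : False := by
  subst hK' hK''
  have b1 := hv'.two 2 5 (p := 2) (q := 4) (by norm_num) (by norm_num) (by norm_num)
    (by norm_num) (by simpa using nY) (by
      intro m _ _ h5 h6
      have : m ≠ 5 := by omega
      simp [h5, h6, this])
  have c1 := hv''.two 2 4 (p := 2) (q := 3) (by norm_num) (by norm_num) (by norm_num)
    (by norm_num) (by simpa using nY) (by intro m _ _ h5 h6; omega)
  have c2 := hv''.two 3 5 (p := 3) (q := 4) (by norm_num) (by norm_num) (by norm_num)
    (by norm_num) (by simpa using nW) (by intro m _ _ h5 h6; omega)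
  have c2' := hv''.two 4 6 (p := 4) (q := 5) (by norm_num) (by norm_num) (by norm_num)
    (by norm_num) (by simpa using nZ) (by intro m _ _ h5 h6; omega)
  have c3 := hv''.three 2 5 (p := 2) (q := 3) (r := 4) (by norm_num) (by norm_num)
    (by norm_num) (by norm_num) (by norm_num) (by norm_num) (by norm_num) (by simpa using nY)
    (by intro m _ _ h5 h6 h7; omega)
  have c4 := hv''.three 3 6 (p := 3) (q := 4) (r := 5) (by norm_num) (by norm_num)
    (by norm_num) (by norm_num) (by norm_num) (by norm_num) (by norm_num) (by simpa using nW)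
    (by intro m _ _ h5 h6 h7; omega)
  have c5 := hv''.four 2 6 (p := 2) (q := 3) (r := 4) (t := 5) (by norm_num) (by norm_num)
    (by norm_num) (by norm_num) (by norm_num) (by norm_num) (by norm_num) (by norm_num)
    (by norm_num) (by norm_num) (by norm_num) (by simpa using nY)
    (by intro m _ _ h5 h6 h7 h8; omega)
  norm_num at b1 c1 c2 c2' c3 c4 c5
  have cX2 : (P \ X).card ≤ 2 := cX.trans (by norm_num)
  obtain ⟨a, haY, haX⟩ := not_subset.1 hYX
  have key : ∀ d, d ∈ P → d ∉ Y → d ∉ X → False := by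
    intro d hd hdY hdX
    exact one_absurd cX (hY haY) hd (by rintro rfl; exact hdY haY) haX hdX
  obtain ⟨d, ⟨y, w, z, x⟩ | ⟨y, w, z, x⟩ | ⟨y, w, z, x⟩ | ⟨y, w, z, x⟩⟩ := c5
  · -- missing in W, Z, X
    exact triple hW hZ hX cW cZ cX2 c2 c2' (fun _ => cX) c4 (hY y) w z x
  · exact key d (hW w) y x
  · exact key d (hZ z) y x
  · -- missing in Y, W, Z
    exact triple hY hW hZ cY cW cZ c1 c2 (fun h => absurd h b1) c3 (hX x) y w z

lemma forces_three {A : List ℝ → C} (hA : ConflictFree A) {k a : ℕ} (h1 : Forces A k a) :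
    Forces A (k + 2) (3 * a) := by
  intro h u v hn huv hh
  have I0 := Inv.init (A := A) huv hn hh
  obtain ⟨X, lX, inX, cX, I1⟩ := I0.insert huv (m := 5) (by norm_num) rfl h1
  obtain ⟨Y, lY, inY, cY, I2⟩ := I1.insert huv (m := 2) (by norm_num)
    (by simp [Function.update_apply]) h1
  obtain ⟨X', lX', inX', cX', I3⟩ := I2.insert huv (m := 3) (by norm_num)
    (by simp [Function.update_apply]) h1
  refine ⟨X ++ (Y ++ X'), ?_, ?_, ?_, ?_⟩
  · simp only [List.length_append]; omega
  · simpa [List.append_assoc] using I3.nodup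
  · intro p hp
    simp only [List.mem_append] at hp
    rcases hp with hp | hp | hp
    · exact inX p hp
    · exact inY p hp
    · exact inX' p hp
  · by_contra hlt
    push Not at hlt
    have hP : cols A h (X ++ (Y ++ X')) =
        cols A h X ∪ (cols A (h ++ X) Y ∪ cols A (h ++ X ++ Y) X') := by
      rw [cols_append, cols_append]
    have sX : cols A h X ⊆ cols A h (X ++ (Y ++ X')) := by
      rw [hP]; exact subset_union_left
    have sY : cols A (h ++ X) Y ⊆ cols A h (X ++ (Y ++ X')) := by
      rw [hP]; exact subset_union_left.trans subset_union_right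
    have sX' : cols A (h ++ X ++ Y) X' ⊆ cols A h (X ++ (Y ++ X')) := by
      rw [hP]; exact subset_union_right.trans subset_union_right
    refine pattern1 (I2.valid hA huv) (I3.valid hA huv) ?_ ?_ sX sX' sY ?_ ?_ ?_
      (nonempty_of_le cX) (nonempty_of_le cX') (nonempty_of_le cY)
    · funext m; simp [Function.update_apply]
    · funext m; simp [Function.update_apply]
    · exact (miss sX (a := k + 2) (by omega) cX).trans (by omega)
    · exact (miss sX' (a := k + 2) (by omega) cX').trans (by omega)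
    · exact (miss sY (a := k + 2) (by omega) cY).trans (by omega)

/-- The main recursion: `G (k + 3) ≤ G (k + 1) + 3 * G k`. -/
lemma step {A : List ℝ → C} (hA : ConflictFree A) {k a b : ℕ} (h1 : Forces A k b)
    (h2 : Forces A (k + 1) a) (hab : a ≤ 2 * b) : Forces A (k + 3) (a + 3 * b) := by
  intro h u v hn huv hh
  have I0 := Inv.init (A := A) huv hn hh
  obtain ⟨X, lX, inX, cX, I1⟩ := I0.insert huv (m := 5) (by norm_num) rfl h2
  obtain ⟨Y, lY, inY, cY, I2⟩ := I1.insert huv (m := 2) (by norm_num)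
    (by simp [Function.update_apply]) h1
  by_cases hcase : k + 2 ≤ (cols A (h ++ X) Y).card
  · obtain ⟨X', lX', inX', cX', I3⟩ := I2.insert huv (m := 3) (by norm_num)
      (by simp [Function.update_apply]) h2
    refine ⟨X ++ (Y ++ X'), ?_, ?_, ?_, ?_⟩
    · simp only [List.length_append]; omega
    · simpa [List.append_assoc] using I3.nodup
    · intro p hp
      simp only [List.mem_append] at hp
      rcases hp with hp | hp | hp
      · exact inX p hp
      · exact inY p hp
      · exact inX' p hp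
    · by_contra hlt
      push Not at hlt
      have hP : cols A h (X ++ (Y ++ X')) =
          cols A h X ∪ (cols A (h ++ X) Y ∪ cols A (h ++ X ++ Y) X') := by
        rw [cols_append, cols_append]
      have sX : cols A h X ⊆ cols A h (X ++ (Y ++ X')) := by
        rw [hP]; exact subset_union_left
      have sY : cols A (h ++ X) Y ⊆ cols A h (X ++ (Y ++ X')) := by
        rw [hP]; exact subset_union_left.trans subset_union_right
      have sX' : cols A (h ++ X ++ Y) X' ⊆ cols A h (X ++ (Y ++ X')) := by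
        rw [hP]; exact subset_union_right.trans subset_union_right
      refine pattern1 (I2.valid hA huv) (I3.valid hA huv) ?_ ?_ sX sX' sY ?_ ?_ ?_
        (nonempty_of_le cX) (nonempty_of_le cX') (nonempty_of_le cY)
      · funext m; simp [Function.update_apply]
      · funext m; simp [Function.update_apply]
      · exact (miss sX (a := k + 3) (by omega) cX).trans (by omega)
      · exact (miss sX' (a := k + 3) (by omega) cX').trans (by omega)
      · exact (miss sY (a := k + 3) (by omega) hcase).trans (by omega)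
  · by_cases hYX : cols A (h ++ X) Y ⊆ cols A h X
    · obtain ⟨Z, lZ, inZ, cZ, I3⟩ := I2.insert huv (m := 0) (by norm_num)
        (by simp [Function.update_apply]) h1
      obtain ⟨W, lW, inW, cW, I4⟩ := I3.insert huv (m := 1) (by norm_num)
        (by simp [Function.update_apply]) h1
      refine ⟨X ++ (Y ++ (Z ++ W)), ?_, ?_, ?_, ?_⟩
      · simp only [List.length_append]; omega
      · simpa [List.append_assoc] using I4.nodup
      · intro p hp
        simp only [List.mem_append] at hp
        rcases hp with hp | hp | hp | hp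
        · exact inX p hp
        · exact inY p hp
        · exact inZ p hp
        · exact inW p hp
      · by_contra hlt
        push Not at hlt
        have hP : cols A h (X ++ (Y ++ (Z ++ W))) = cols A h X ∪ (cols A (h ++ X) Y ∪
            (cols A (h ++ X ++ Y) Z ∪ cols A (h ++ X ++ Y ++ Z) W)) := by
          rw [cols_append, cols_append, cols_append]
        have sX : cols A h X ⊆ cols A h (X ++ (Y ++ (Z ++ W))) := by
          rw [hP]; exact subset_union_left
        have sY : cols A (h ++ X) Y ⊆ cols A h (X ++ (Y ++ (Z ++ W))) := by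
          rw [hP]; exact subset_union_left.trans subset_union_right
        have sZ : cols A (h ++ X ++ Y) Z ⊆ cols A h (X ++ (Y ++ (Z ++ W))) := by
          rw [hP]; exact (subset_union_left.trans subset_union_right).trans subset_union_right
        have sW : cols A (h ++ X ++ Y ++ Z) W ⊆ cols A h (X ++ (Y ++ (Z ++ W))) := by
          rw [hP]; exact (subset_union_right.trans subset_union_right).trans subset_union_right
        refine pattern2 (I2.valid hA huv) (I3.valid hA huv) (I4.valid hA huv) ?_ ?_ ?_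
          sX sY sZ sW ?_ ?_ ?_ ?_ (nonempty_of_le cX) (nonempty_of_le cY)
          (nonempty_of_le cZ) (nonempty_of_le cW) hYX
        · funext m; simp [Function.update_apply]
        · funext m; simp [Function.update_apply]
        · funext m; simp [Function.update_apply]
        · exact (miss sX (a := k + 3) (by omega) cX).trans (by omega)
        · exact (miss sY (a := k + 3) (by omega) cY).trans (by omega)
        · exact (miss sZ (a := k + 3) (by omega) cZ).trans (by omega)
        · exact (miss sW (a := k + 3) (by omega) cW).trans (by omega)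
    · obtain ⟨Z, lZ, inZ, cZ, I3⟩ := I2.insert huv (m := 4) (by norm_num)
        (by simp [Function.update_apply]) h1
      obtain ⟨W, lW, inW, cW, I4⟩ := I3.insert huv (m := 3) (by norm_num)
        (by simp [Function.update_apply]) h1
      refine ⟨X ++ (Y ++ (Z ++ W)), ?_, ?_, ?_, ?_⟩
      · simp only [List.length_append]; omega
      · simpa [List.append_assoc] using I4.nodup
      · intro p hp
        simp only [List.mem_append] at hp
        rcases hp with hp | hp | hp | hp
        · exact inX p hp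
        · exact inY p hp
        · exact inZ p hp
        · exact inW p hp
      · by_contra hlt
        push Not at hlt
        have hP : cols A h (X ++ (Y ++ (Z ++ W))) = cols A h X ∪ (cols A (h ++ X) Y ∪
            (cols A (h ++ X ++ Y) Z ∪ cols A (h ++ X ++ Y ++ Z) W)) := by
          rw [cols_append, cols_append, cols_append]
        have sX : cols A h X ⊆ cols A h (X ++ (Y ++ (Z ++ W))) := by
          rw [hP]; exact subset_union_left
        have sY : cols A (h ++ X) Y ⊆ cols A h (X ++ (Y ++ (Z ++ W))) := by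
          rw [hP]; exact subset_union_left.trans subset_union_right
        have sZ : cols A (h ++ X ++ Y) Z ⊆ cols A h (X ++ (Y ++ (Z ++ W))) := by
          rw [hP]; exact (subset_union_left.trans subset_union_right).trans subset_union_right
        have sW : cols A (h ++ X ++ Y ++ Z) W ⊆ cols A h (X ++ (Y ++ (Z ++ W))) := by
          rw [hP]; exact (subset_union_right.trans subset_union_right).trans subset_union_right
        refine pattern3 (I3.valid hA huv) (I4.valid hA huv) ?_ ?_
          sX sY sZ sW ?_ ?_ ?_ ?_ (nonempty_of_le cX) (nonempty_of_le cY)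
          (nonempty_of_le cZ) (nonempty_of_le cW) hYX
        · funext m; simp [Function.update_apply]
        · funext m; simp [Function.update_apply]
        · exact (miss sX (a := k + 3) (by omega) cX).trans (by omega)
        · exact (miss sY (a := k + 3) (by omega) cY).trans (by omega)
        · exact (miss sZ (a := k + 3) (by omega) cZ).trans (by omega)
        · exact (miss sW (a := k + 3) (by omega) cW).trans (by omega)

/-- `g k` points force more than `k` colours: `1, 2, 3, 5, 9, 14, 24, 41, …`. -/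
def g : ℕ → ℕ
  | 0 => 1
  | 1 => 2
  | 2 => 3
  | k + 3 => g (k + 1) + 3 * g k

lemma g_double : ∀ k, g (k + 1) ≤ 2 * g k
  | 0 => by simp [g]
  | 1 => by simp [g]
  | 2 => by simp [g]
  | k + 3 => by
    have h1 := g_double (k + 1)
    have h2 := g_double k
    have e1 : g (k + 3 + 1) = g (k + 2) + 3 * g (k + 1) := by rw [g]
    have e2 : g (k + 3) = g (k + 1) + 3 * g k := by rw [g]
    rw [e1, e2]
    have h1' : g (k + 2) ≤ 2 * g (k + 1) := h1
    omega

lemma forces_g {A : List ℝ → C} (hA : ConflictFree A) : ∀ k, Forces A k (g k)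
  | 0 => forces_zero A
  | 1 => forces_two hA (forces_zero A)
  | 2 => forces_three hA (forces_zero A)
  | k + 3 => step hA (forces_g hA k) (forces_g hA (k + 1)) (g_double k)

lemma g_le : ∀ k, (g k : ℝ) ≤ 6 / 5 * (209 / 125 : ℝ) ^ k
  | 0 => by norm_num [g]
  | 1 => by norm_num [g]
  | 2 => by norm_num [g]
  | k + 3 => by
    have h1 := g_le (k + 1)
    have h2 := g_le k
    have e2 : g (k + 3) = g (k + 1) + 3 * g k := by rw [g]
    rw [e2]
    push_cast
    have h3 : (0 : ℝ) < (209 / 125 : ℝ) ^ k := by positivity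
    rw [pow_succ] at h1
    rw [pow_add]
    nlinarith

/-- **Main result.**  Let `A` be a deterministic online algorithm (with any set `C` of colours)
that keeps the colouring conflict-free with respect to intervals.  For every `n` there is a
sequence of distinct points such that the number `K` of colours which `A` uses on its first `n`
points satisfies `n < 6/5 * (209/125) ^ K = 1.2 * 1.672 ^ K`. -/
theorem result {C : Type*} [DecidableEq C] (A : List ℝ → C) (hA : ConflictFree A) (n : ℕ) :
    ∃ x : ℕ → ℝ, Function.Injective x ∧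
      (n : ℝ) < 6 / 5 * (209 / 125 : ℝ) ^ ((range n).image (colour A x)).card := by
  -- the largest number of colours on `n` points
  set S : Set ℕ := {K | ∃ x : ℕ → ℝ, Function.Injective x ∧
    K = ((range n).image (colour A x)).card} with hS
  have hne : S.Nonempty := ⟨_, fun i => (i : ℝ), Nat.cast_injective, rfl⟩
  have hbd : BddAbove S := by
    refine ⟨n, ?_⟩
    rintro K ⟨x, -, rfl⟩
    exact card_image_le.trans (card_range n).le
  obtain ⟨x, hx, hK⟩ : sSup S ∈ S := Nat.sSup_mem hne hbd
  have main : n < g (sSup S) := by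
    by_contra hlt
    have h2 : g (sSup S) ≤ n := not_lt.1 hlt
    obtain ⟨b, hb1, hb2, -, hb4⟩ := forces_g hA (sSup S) [] 0 1 List.nodup_nil one_pos (by simp)
    rw [List.nil_append] at hb2
    obtain ⟨y, hy, hyl⟩ := exists_seq b hb2
    have h3 : ((range n).image (colour A y)).card ∈ S := ⟨y, hy, rfl⟩
    have h4 := le_csSup hbd h3
    have h5 : cols A [] b ⊆ (range n).image (colour A y) := by
      intro c hc
      rw [mem_cols, ← hyl, pcs_range] at hc
      obtain ⟨q, hq, rfl⟩ := hc
      rw [List.mem_map] at hq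
      obtain ⟨i, hi, rfl⟩ := hq
      rw [List.mem_range] at hi
      exact mem_image_of_mem _ (mem_range.2 (by omega))
    have h6 := card_le_card h5
    omega
  refine ⟨x, hx, ?_⟩
  rw [← hK]
  have h1 : (n : ℝ) < g (sSup S) := by exact_mod_cast main
  exact h1.trans_le (g_le _)

end Pool.Agent.Results.MP_755262_lc.ConflictFreeLowerBound
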