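import Mathlib

/-!
# Online conflict-free colouring of points on a line: a lower bound for unique-maximum algorithms

A deterministic online algorithm that keeps the colouring *unique-maximum* with respect to
intervals (in every interval that contains a point, the largest colour occurs exactly once; the colours
come from an arbitrary linearly ordered set) can be forced to use `K`
colours on `n` points with `n + 2 ≤ 2 * (3/2) ^ K`, so `K ≥ log_{3/2} ((n + 2) / 2)`, which is
about `1.71 * log₂ n`.

The adversary always inserts the next point in the middle of the current gap and then continues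
on the left or on the right of the new point.  It watches the colours that are visible from the
gap and gives the visible colour `c` the weight `(3/2) ^ r`, where `r` is the number of colours
used so far which are smaller than `c`.  One of the two sides increases the total weight of the
visible colours by at least `1`.
-/

set_option autoImplicit false

namespace Pool.Agent.Results.MP_755262_lc.UniqueMaxLowerBound

open Finset

/-- The colour which the algorithm `A` gives to the `i`-th point of the insertion sequence `x`;
it depends on the points `x 0, …, x i` only. -/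
def colour {C : Type*} (A : List ℝ → C) (x : ℕ → ℝ) (i : ℕ) : C := A ((List.range (i + 1)).map x)

variable {C : Type*} [LinearOrder C]

/-- The algorithm `A` keeps the colouring unique-maximum with respect to intervals: for every
sequence of distinct points, at every time `n`, every closed interval that contains a current
point contains a current point whose colour is larger than all other colours in the interval. -/
def UniqueMax (A : List ℝ → C) : Prop :=
  ∀ x : ℕ → ℝ, Function.Injective x → ∀ n : ℕ, ∀ a b : ℝ,
    (∃ i, i < n ∧ x i ∈ Set.Icc a b) →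
      ∃ i, i < n ∧ x i ∈ Set.Icc a b ∧
        ∀ j, j < n → x j ∈ Set.Icc a b → j ≠ i → colour A x j < colour A x i

/-- The end points of the gap after `n` steps; `s n = true` means that the adversary continues
on the right of the `n`-th point. -/
noncomputable def ends (s : ℕ → Bool) : ℕ → ℝ × ℝ
  | 0 => (0, 1)
  | n + 1 =>
    if s n = true then (((ends s n).1 + (ends s n).2) / 2, (ends s n).2)
    else ((ends s n).1, ((ends s n).1 + (ends s n).2) / 2)

/-- The `n`-th point is the middle of the gap. -/
noncomputable def pt (s : ℕ → Bool) (n : ℕ) : ℝ := ((ends s n).1 + (ends s n).2) / 2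

lemma ends_succ_true {s : ℕ → Bool} {n : ℕ} (h : s n = true) :
    ends s (n + 1) = (pt s n, (ends s n).2) := by
  simp [ends, pt, h]

lemma ends_succ_false {s : ℕ → Bool} {n : ℕ} (h : s n = false) :
    ends s (n + 1) = ((ends s n).1, pt s n) := by
  simp [ends, pt, h]

lemma ends_lt (s : ℕ → Bool) (n : ℕ) : (ends s n).1 < (ends s n).2 := by
  induction n with
  | zero => simp [ends]
  | succ n ih =>
    cases h : s n
    · rw [ends_succ_false h]; simp only [pt]; linarith
    · rw [ends_succ_true h]; simp only [pt]; linarith

lemma lo_lt_pt (s : ℕ → Bool) (n : ℕ) : (ends s n).1 < pt s n := by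
  have := ends_lt s n; simp only [pt]; linarith

lemma pt_lt_hi (s : ℕ → Bool) (n : ℕ) : pt s n < (ends s n).2 := by
  have := ends_lt s n; simp only [pt]; linarith

lemma ends_mono (s : ℕ → Bool) {m n : ℕ} (h : m ≤ n) :
    (ends s m).1 ≤ (ends s n).1 ∧ (ends s n).2 ≤ (ends s m).2 := by
  induction n, h using Nat.le_induction with
  | base => exact ⟨le_rfl, le_rfl⟩
  | succ n _ ih =>
    have h1 := lo_lt_pt s n
    have h2 := pt_lt_hi s n
    cases h : s n
    · rw [ends_succ_false h]; exact ⟨ih.1, by simpa using h2.le.trans ih.2⟩
    · rw [ends_succ_true h]; exact ⟨by simpa using ih.1.trans h1.le, ih.2⟩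

lemma pt_le_lo {s : ℕ → Bool} {i n : ℕ} (hi : i < n) (h : s i = true) :
    pt s i ≤ (ends s n).1 := by
  have := (ends_mono s (Nat.succ_le_of_lt hi)).1
  rw [Nat.succ_eq_add_one, ends_succ_true h] at this
  exact this

lemma hi_le_pt {s : ℕ → Bool} {i n : ℕ} (hi : i < n) (h : s i = false) :
    (ends s n).2 ≤ pt s i := by
  have := (ends_mono s (Nat.succ_le_of_lt hi)).2
  rw [Nat.succ_eq_add_one, ends_succ_false h] at this
  exact this

lemma pt_lt_of_true {s : ℕ → Bool} {i n : ℕ} (hi : i < n) (h : s i = true) :
    pt s i < pt s n := (pt_le_lo hi h).trans_lt (lo_lt_pt s n)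

lemma pt_lt_of_false {s : ℕ → Bool} {i n : ℕ} (hi : i < n) (h : s i = false) :
    pt s n < pt s i := (pt_lt_hi s n).trans_le (hi_le_pt hi h)

lemma pt_ne {s : ℕ → Bool} {i n : ℕ} (hi : i < n) : pt s i ≠ pt s n := by
  cases h : s i
  · exact (pt_lt_of_false hi h).ne'
  · exact (pt_lt_of_true hi h).ne

lemma pt_injective (s : ℕ → Bool) : Function.Injective (pt s) := by
  intro i j hij
  rcases lt_trichotomy i j with h | h | h
  · exact absurd hij (pt_ne h)
  · exact h
  · exact absurd hij.symm (pt_ne h)

lemma ends_congr {s t : ℕ → Bool} {n : ℕ} (h : ∀ i, i < n → s i = t i) :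
    ends s n = ends t n := by
  induction n with
  | zero => simp [ends]
  | succ n ih =>
    have ih' := ih (fun i hi => h i (hi.trans (Nat.lt_succ_self n)))
    simp only [ends, ih', h n (Nat.lt_succ_self n)]

lemma pt_congr {s t : ℕ → Bool} {n : ℕ} (h : ∀ i, i < n → s i = t i) : pt s n = pt t n := by
  simp only [pt, ends_congr h]

omit [LinearOrder C] in
lemma colour_congr (A : List ℝ → C) {s t : ℕ → Bool} {n : ℕ} (h : ∀ i, i < n → s i = t i)
    {i : ℕ} (hi : i ≤ n) : colour A (pt s) i = colour A (pt t) i := by
  unfold colour
  congr 1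
  apply List.map_congr_left
  intro j hj
  rw [List.mem_range] at hj
  exact pt_congr (fun l hl => h l (by omega))

open scoped Classical in
/-- The points visible from the gap at time `n`. -/
noncomputable def vis (A : List ℝ → C) (s : ℕ → Bool) (n : ℕ) : Finset ℕ :=
  (range n).filter (fun i => ∀ j, i < j → j < n → s j = s i →
    colour A (pt s) j < colour A (pt s) i)

/-- The colours used up to time `n`. -/
noncomputable def used (A : List ℝ → C) (s : ℕ → Bool) (n : ℕ) : Finset C :=
  (range n).image (colour A (pt s))

/-- The weight of the colour `c` when `D` is the set of colours used. -/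
noncomputable def wt (D : Finset C) (c : C) : ℝ := (3 / 2 : ℝ) ^ (D.filter (· < c)).card

lemma wt_pos (D : Finset C) (c : C) : 0 < wt D c := by unfold wt; positivity

lemma wt_mono {D E : Finset C} (h : D ⊆ E) (c : C) : wt D c ≤ wt E c := by
  unfold wt
  apply pow_le_pow_right₀ (by norm_num)
  exact card_le_card (filter_subset_filter _ h)

/-- The weight of the visible colours. -/
noncomputable def pot (A : List ℝ → C) (s : ℕ → Bool) (n : ℕ) : ℝ :=
  ∑ i ∈ vis A s n, wt (used A s n) (colour A (pt s) i)

lemma vis_ne_of_sides {A : List ℝ → C} (hA : UniqueMax A) {s : ℕ → Bool} {n i j : ℕ}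
    (hi : i ∈ vis A s n) (hj : j ∈ vis A s n) (si : s i = true) (sj : s j = false) :
    colour A (pt s) i ≠ colour A (pt s) j := by
  simp only [vis, mem_filter, mem_range] at hi hj
  obtain ⟨hin, hi⟩ := hi
  obtain ⟨hjn, hj⟩ := hj
  have h1 : pt s i ≤ (ends s n).1 := pt_le_lo hin si
  have h2 : (ends s n).2 ≤ pt s j := hi_le_pt hjn sj
  have h3 := ends_lt s n
  have hij : pt s i < pt s j := by linarith
  obtain ⟨m, hm, hmI, hmax⟩ := hA (pt s) (pt_injective s) n (pt s i) (pt s j)
    ⟨i, hin, ⟨le_rfl, hij.le⟩⟩
  intro heq
  have hne : i ≠ j := by rintro rfl; rw [si] at sj; cases sj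
  by_cases hmi : m = i
  · subst hmi
    exact absurd (hmax j hjn ⟨hij.le, le_rfl⟩ hne.symm) (by rw [heq]; exact lt_irrefl _)
  by_cases hmj : m = j
  · subst hmj
    exact absurd (hmax i hin ⟨le_rfl, hij.le⟩ hne) (by rw [heq]; exact lt_irrefl _)
  cases sm : s m
  · have hjm : j < m := by
      rcases lt_trichotomy j m with h | h | h
      · exact h
      · exact absurd h.symm hmj
      · exact absurd (pt_lt_of_false h sm) (not_lt.2 hmI.2)
    have a := hj m hjm hm (by rw [sm, sj])
    have b := hmax j hjn ⟨hij.le, le_rfl⟩ (Ne.symm hmj)
    exact absurd a (not_lt.2 b.le)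
  · have him : i < m := by
      rcases lt_trichotomy i m with h | h | h
      · exact h
      · exact absurd h.symm hmi
      · exact absurd (pt_lt_of_true h sm) (not_lt.2 hmI.1)
    have a := hi m him hm (by rw [sm, si])
    have b := hmax i hin ⟨le_rfl, hij.le⟩ (Ne.symm hmi)
    exact absurd a (not_lt.2 b.le)

lemma vis_ne {A : List ℝ → C} (hA : UniqueMax A) {s : ℕ → Bool} {n i j : ℕ}
    (hi : i ∈ vis A s n) (hj : j ∈ vis A s n) (hij : i ≠ j) :
    colour A (pt s) i ≠ colour A (pt s) j := by
  cases si : s i <;> cases sj : s j
  · have hi' := hi; have hj' := hj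
    simp only [vis, mem_filter, mem_range] at hi' hj'
    rcases lt_or_gt_of_ne hij with h | h
    · exact (hi'.2 j h hj'.1 (by rw [si, sj])).ne'
    · exact (hj'.2 i h hi'.1 (by rw [si, sj])).ne
  · exact (vis_ne_of_sides hA hj hi sj si).symm
  · exact vis_ne_of_sides hA hi hj si sj
  · have hi' := hi; have hj' := hj
    simp only [vis, mem_filter, mem_range] at hi' hj'
    rcases lt_or_gt_of_ne hij with h | h
    · exact (hi'.2 j h hj'.1 (by rw [si, sj])).ne'
    · exact (hj'.2 i h hi'.1 (by rw [si, sj])).ne

/-- Sum of the weights of all elements of a finite set. -/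
lemma sum_wt (S : Finset C) : ∑ d ∈ S, wt S d = 2 * (3 / 2 : ℝ) ^ S.card - 2 := by
  induction S using Finset.induction_on_max with
  | empty => simp
  | insert a S ha ih =>
    have hna : a ∉ S := fun h => lt_irrefl a (ha a h)
    rw [sum_insert hna, card_insert_of_notMem hna]
    have e1 : wt (insert a S) a = (3 / 2 : ℝ) ^ S.card := by
      unfold wt
      congr 2
      ext d
      simp only [mem_filter, mem_insert]
      constructor
      · rintro ⟨rfl | h, h2⟩
        · exact absurd h2 (lt_irrefl _)
        · exact h
      · intro h; exact ⟨Or.inr h, ha d h⟩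
    have e2 : ∑ d ∈ S, wt (insert a S) d = ∑ d ∈ S, wt S d := by
      apply sum_congr rfl
      intro d hd
      unfold wt
      congr 2
      ext e
      simp only [mem_filter, mem_insert]
      constructor
      · rintro ⟨rfl | h, h2⟩
        · exact absurd h2 (not_lt.2 (ha d hd).le)
        · exact ⟨h, h2⟩
      · rintro ⟨h, h2⟩; exact ⟨Or.inr h, h2⟩
    rw [e1, e2, ih, pow_succ]
    ring

lemma sum_wt_below (D : Finset C) (x : C) :
    ∑ d ∈ D.filter (· < x), wt D d = 2 * wt D x - 2 := by
  have h := sum_wt (D.filter (· < x))
  rw [show wt D x = (3 / 2 : ℝ) ^ (D.filter (· < x)).card from rfl, ← h]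
  apply sum_congr rfl
  intro d hd
  rw [mem_filter] at hd
  unfold wt
  congr 2
  ext e
  simp only [mem_filter]
  constructor
  · rintro ⟨h1, h2⟩; exact ⟨⟨h1, h2.trans hd.2⟩, h2⟩
  · rintro ⟨⟨h1, _⟩, h2⟩; exact ⟨h1, h2⟩

lemma sum_vis_le {A : List ℝ → C} (hA : UniqueMax A) (s : ℕ → Bool) (n : ℕ)
    (T : Finset ℕ) (hT : T ⊆ vis A s n) (D E : Finset C)
    (hE : ∀ i ∈ T, colour A (pt s) i ∈ E) :
    ∑ i ∈ T, wt D (colour A (pt s) i) ≤ ∑ d ∈ E, wt D d := by
  have hinj : Set.InjOn (colour A (pt s)) (T : Set ℕ) := by
    intro i hi j hj hij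
    by_contra hne
    exact vis_ne hA (hT hi) (hT hj) hne hij
  rw [← sum_image (f := fun d => wt D d) hinj]
  apply sum_le_sum_of_subset_of_nonneg
  · intro d hd
    rw [mem_image] at hd
    obtain ⟨i, hi, rfl⟩ := hd
    exact hE i hi
  · intro d _ _; exact (wt_pos D d).le

lemma pot_le {A : List ℝ → C} (hA : UniqueMax A) (s : ℕ → Bool) (n : ℕ) :
    pot A s n ≤ 2 * (3 / 2 : ℝ) ^ (used A s n).card - 2 := by
  rw [← sum_wt]
  apply sum_vis_le hA s n (vis A s n) (Subset.refl _)
  intro i hi
  simp only [vis, mem_filter, mem_range] at hi
  exact mem_image_of_mem _ (mem_range.2 hi.1)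

lemma step {A : List ℝ → C} (hA : UniqueMax A) (s : ℕ → Bool) (n : ℕ) :
    ∃ b : Bool, pot A s n + 1 ≤ pot A (Function.update s n b) (n + 1) := by
  classical
  set c : ℕ → C := colour A (pt s) with hc
  set D' : Finset C := insert (c n) (used A s n) with hD'
  have hcong : ∀ b : Bool, ∀ i, i ≤ n → colour A (pt (Function.update s n b)) i = c i := by
    intro b i hi
    apply colour_congr A (n := n) _ hi
    intro l hl
    rw [Function.update_of_ne (by omega)]
  have hused : ∀ b : Bool, used A (Function.update s n b) (n + 1) = D' := by
    intro b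
    rw [hD', used, used, range_add_one, image_insert, hcong b n le_rfl]
    congr 1
    apply image_congr
    intro i hi
    simp only [coe_range, Set.mem_Iio] at hi
    exact hcong b i hi.le
  -- the new colour differs from all visible colours
  have hnew : ∀ i ∈ vis A s n, c i ≠ c n := by
    intro i hi
    have hin : i < n := by
      simp only [vis, mem_filter, mem_range] at hi; exact hi.1
    set t := Function.update s n (!s i) with ht
    have htn : t n = !s i := by rw [ht, Function.update_self]
    have hti : ∀ l, l < n → t l = s l := fun l hl => by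
      rw [ht, Function.update_of_ne (by omega)]
    have h1 : i ∈ vis A t (n + 1) := by
      simp only [vis, mem_filter, mem_range] at hi ⊢
      refine ⟨by omega, fun j hij hjn hs => ?_⟩
      rcases Nat.lt_succ_iff_lt_or_eq.1 hjn with h | h
      · rw [ht, hcong _ j h.le, hcong _ i hin.le]
        exact hi.2 j hij h (by rw [← hti j h, ← hti i hin]; exact hs)
      · exfalso
        subst h
        rw [htn, hti i hin] at hs
        cases s i <;> simp at hs
    have h2 : n ∈ vis A t (n + 1) := by
      simp only [vis, mem_filter, mem_range]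
      exact ⟨by omega, fun j h1 h2 => by omega⟩
    have := vis_ne hA h1 h2 hin.ne
    rwa [ht, hcong _ i hin.le, hcong _ n le_rfl] at this
  -- a lower bound for the new potential
  have hlow : ∀ b : Bool, wt D' (c n) +
      ∑ i ∈ (vis A s n).filter (fun i => s i = b → c n < c i), wt D' (c i) ≤
        pot A (Function.update s n b) (n + 1) := by
    intro b
    have hn : n ∉ (vis A s n).filter (fun i => s i = b → c n < c i) := by
      simp [vis]
    have e : wt D' (c n) + ∑ i ∈ (vis A s n).filter (fun i => s i = b → c n < c i), wt D' (c i)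
        = ∑ i ∈ insert n ((vis A s n).filter (fun i => s i = b → c n < c i)),
          wt D' (colour A (pt (Function.update s n b)) i) := by
      rw [sum_insert hn, hcong b n le_rfl]
      congr 1
      apply sum_congr rfl
      intro i hi
      simp only [vis, mem_filter, mem_range] at hi
      rw [hcong b i hi.1.1.le]
    rw [e, pot, hused b]
    apply sum_le_sum_of_subset_of_nonneg
    · intro i hi
      rw [mem_insert] at hi
      simp only [vis, mem_filter, mem_range]
      rcases hi with rfl | hi
      · exact ⟨by omega, fun j h1 h2 => by omega⟩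
      · simp only [vis, mem_filter, mem_range] at hi
        obtain ⟨⟨hin, hv⟩, hb⟩ := hi
        refine ⟨by omega, fun j hij hjn hs => ?_⟩
        rw [Function.update_of_ne (show i ≠ n by omega)] at hs
        rcases Nat.lt_succ_iff_lt_or_eq.1 hjn with h | h
        · rw [hcong b j h.le, hcong b i hin.le]
          rw [Function.update_of_ne (show j ≠ n by omega)] at hs
          exact hv j hij h hs
        · subst h
          rw [hcong b j le_rfl, hcong b i hin.le]
          rw [Function.update_self] at hs
          exact hb hs.symm
    · intro i _ _; exact (wt_pos _ _).le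
  have hsum : 2 * ∑ i ∈ vis A s n, wt D' (c i) =
      ∑ i ∈ (vis A s n).filter (fun i => s i = true → c n < c i), wt D' (c i) +
      ∑ i ∈ (vis A s n).filter (fun i => s i = false → c n < c i), wt D' (c i) +
      ∑ i ∈ (vis A s n).filter (fun i => c i < c n), wt D' (c i) := by
    rw [sum_filter, sum_filter, sum_filter, mul_sum, ← sum_add_distrib, ← sum_add_distrib]
    apply sum_congr rfl
    intro i hi
    have hne := hnew i hi
    rcases lt_or_gt_of_ne hne with h | h
    · have h' : ¬ c n < c i := not_lt.2 h.le
      cases hs : s i <;> simp [h, h'] <;> ring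
    · have h' : ¬ c i < c n := not_lt.2 h.le
      simp [h, h']
      ring
  have hbelow : ∑ i ∈ (vis A s n).filter (fun i => c i < c n), wt D' (c i) ≤
      2 * wt D' (c n) - 2 := by
    rw [← sum_wt_below]
    apply sum_vis_le hA s n _ (filter_subset _ _)
    intro i hi
    simp only [mem_filter] at hi
    rw [mem_filter]
    refine ⟨mem_insert_of_mem ?_, hi.2⟩
    have := hi.1
    simp only [vis, mem_filter, mem_range] at this
    exact mem_image_of_mem _ (mem_range.2 this.1)
  have hold : pot A s n ≤ ∑ i ∈ vis A s n, wt D' (c i) := by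
    apply sum_le_sum
    intro i _
    exact wt_mono (subset_insert _ _) _
  have ht := hlow true
  have hf := hlow false
  by_contra hcon
  push Not at hcon
  have h1 := hcon true
  have h2 := hcon false
  linarith

/-- **Main result.**  Let `C` be any linearly ordered set of colours and let `A` be a
deterministic online algorithm with colours in `C` that keeps the colouring unique-maximum with
respect to intervals.  For every `n` there is a sequence of distinct points
such that the number `K` of colours which `A` uses on its first `n` points satisfies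
`n + 2 ≤ 2 * (3/2) ^ K`, that is, `K ≥ log_{3/2} ((n + 2) / 2)`. -/
theorem result {C : Type*} [LinearOrder C] (A : List ℝ → C) (hA : UniqueMax A) (n : ℕ) :
    ∃ x : ℕ → ℝ, Function.Injective x ∧
      (n : ℝ) + 2 ≤ 2 * (3 / 2 : ℝ) ^ ((range n).image (colour A x)).card := by
  have key : ∃ s : ℕ → Bool, (n : ℝ) ≤ pot A s n := by
    induction n with
    | zero => exact ⟨fun _ => true, by simp [pot, vis]⟩
    | succ n ih =>
      obtain ⟨s, hs⟩ := ih
      obtain ⟨b, hb⟩ := step hA s n
      exact ⟨Function.update s n b, by push_cast; linarith⟩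
  obtain ⟨s, hs⟩ := key
  refine ⟨pt s, pt_injective s, ?_⟩
  have := pot_le hA s n
  unfold used at this
  linarith

end Pool.Agent.Results.MP_755262_lc.UniqueMaxLowerBound
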